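import Mathlib

/-!
# APS-fairness and PROP1 for additive goods and arbitrary entitlements

For entitlements `w` (positive, of sum one) every APS-fair allocation of additive goods is PROP1 if
and only if no entitlement exceeds `1 / 2`.
-/

set_option autoImplicit false

open Finset

namespace Pool.Agent.Results.MP_4956c5_co.HalfEntitlements

/-- `p` is a price vector: nonnegative prices of total `1`. -/
def IsPrice {m : ℕ} (p : Fin m → ℝ) : Prop := (∀ j, 0 ≤ p j) ∧ ∑ j, p j = 1

/-- The largest value `v(S)` of a set `S` of items with `p(S) ≤ w`. -/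
noncomputable def bestAffordable {m : ℕ} (v : Fin m → ℝ) (w : ℝ) (p : Fin m → ℝ) : ℝ :=
  sSup {x : ℝ | ∃ S : Finset (Fin m), ∑ j ∈ S, p j ≤ w ∧ x = ∑ j ∈ S, v j}

/-- The AnyPrice share of an agent with item values `v` and entitlement `w`: the minimum over all
price vectors of the largest value of an affordable set. -/
noncomputable def APS {m : ℕ} (v : Fin m → ℝ) (w : ℝ) : ℝ :=
  sInf {x : ℝ | ∃ p : Fin m → ℝ, IsPrice p ∧ x = bestAffordable v w p}

/-- The value for agent `i` of her own bundle under the allocation `A` (item `j` goes to `A j`). -/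
def own {n m : ℕ} (v : Fin n → Fin m → ℝ) (A : Fin m → Fin n) (i : Fin n) : ℝ :=
  ∑ j ∈ univ.filter (fun j => A j = i), v i j

/-- Every agent gets at least her AnyPrice share. -/
def APSFair {n m : ℕ} (w : Fin n → ℝ) (v : Fin n → Fin m → ℝ) (A : Fin m → Fin n) : Prop :=
  ∀ i, APS (v i) (w i) ≤ own v A i

/-- Weighted PROP1: every agent `i` has at least `w i * v i (M)`, possibly after one item of another
agent is added to her bundle. -/
def PROP1 {n m : ℕ} (w : Fin n → ℝ) (v : Fin n → Fin m → ℝ) (A : Fin m → Fin n) : Prop :=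
  ∀ i, w i * ∑ j, v i j ≤ own v A i ∨ ∃ g, A g ≠ i ∧ w i * ∑ j, v i j ≤ own v A i + v i g

/-- For the entitlements `w`, every APS-fair allocation of additive goods is PROP1. -/
def Implication {n : ℕ} (w : Fin n → ℝ) : Prop :=
  ∀ (m : ℕ) (v : Fin n → Fin m → ℝ), (∀ i j, 0 ≤ v i j) → ∀ A : Fin m → Fin n,
    APSFair w v A → PROP1 w v A

/-! ### Knapsack -/

lemma knapsack {ι : Type*} [DecidableEq ι] (p v : ι → ℝ) (w M : ℝ) (hw : 0 ≤ w) :
    ∀ R : Finset ι, (∀ j ∈ R, 0 ≤ p j) → (∀ j ∈ R, 0 ≤ v j) → (∀ j ∈ R, v j ≤ M) →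
      w < ∑ j ∈ R, p j →
      ∃ T ⊆ R, ∑ j ∈ T, p j ≤ w ∧ (∑ j ∈ R, v j) * w ≤ (∑ j ∈ T, v j + M) * ∑ j ∈ R, p j := by
  intro R
  induction R using Finset.strongInduction with
  | H R ih =>
    intro hp hv hM hlt
    have hne : R.Nonempty := by
      rw [nonempty_iff_ne_empty]
      rintro rfl
      simp at hlt
      linarith
    -- an item of least density
    obtain ⟨g, hg, hgd⟩ : ∃ g ∈ R, v g * (∑ j ∈ R, p j) ≤ (∑ j ∈ R, v j) * p g := by
      apply exists_le_of_sum_le hne
      rw [← sum_mul, ← mul_sum]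
    have hpR : ∑ j ∈ R.erase g, p j = ∑ j ∈ R, p j - p g := by
      rw [← add_sum_erase R p hg]; ring
    have hvR : ∑ j ∈ R.erase g, v j = ∑ j ∈ R, v j - v g := by
      rw [← add_sum_erase R v hg]; ring
    have hv0 : 0 ≤ ∑ j ∈ R, v j := sum_nonneg hv
    have hve : 0 ≤ ∑ j ∈ R.erase g, v j := sum_nonneg fun j hj => hv j (mem_of_mem_erase hj)
    have hM0 : 0 ≤ M := (hv g hg).trans (hM g hg)
    by_cases hcase : ∑ j ∈ R.erase g, p j ≤ w
    · refine ⟨R.erase g, erase_subset _ _, hcase, ?_⟩
      have h1 : ∑ j ∈ R, v j ≤ ∑ j ∈ R.erase g, v j + M := by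
        rw [hvR]; linarith [hM g hg]
      calc (∑ j ∈ R, v j) * w ≤ (∑ j ∈ R, v j) * ∑ j ∈ R, p j :=
            mul_le_mul_of_nonneg_left hlt.le hv0
        _ ≤ _ := mul_le_mul_of_nonneg_right h1 (by linarith)
    · push Not at hcase
      obtain ⟨T, hT, hTp, hTv⟩ := ih (R.erase g) (erase_ssubset hg)
        (fun j hj => hp j (mem_of_mem_erase hj)) (fun j hj => hv j (mem_of_mem_erase hj))
        (fun j hj => hM j (mem_of_mem_erase hj)) hcase
      refine ⟨T, hT.trans (erase_subset _ _), hTp, ?_⟩
      have hP : 0 < ∑ j ∈ R, p j := by linarith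
      have hP' : 0 < ∑ j ∈ R.erase g, p j := by linarith
      have hT0 : 0 ≤ ∑ j ∈ T, v j := sum_nonneg fun j hj => hv j (mem_of_mem_erase (hT hj))
      -- density of the rest is at least that of the whole
      have hd : (∑ j ∈ R, v j) * ∑ j ∈ R.erase g, p j ≤ (∑ j ∈ R.erase g, v j) * ∑ j ∈ R, p j := by
        rw [hpR, hvR]; nlinarith
      have h2 : ((∑ j ∈ R, v j) * w) * ∑ j ∈ R.erase g, p j ≤
          ((∑ j ∈ T, v j + M) * ∑ j ∈ R, p j) * ∑ j ∈ R.erase g, p j := by
        calc ((∑ j ∈ R, v j) * w) * ∑ j ∈ R.erase g, p j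
            = ((∑ j ∈ R, v j) * ∑ j ∈ R.erase g, p j) * w := by ring
          _ ≤ ((∑ j ∈ R.erase g, v j) * ∑ j ∈ R, p j) * w := mul_le_mul_of_nonneg_right hd hw
          _ = ((∑ j ∈ R.erase g, v j) * w) * ∑ j ∈ R, p j := by ring
          _ ≤ ((∑ j ∈ T, v j + M) * ∑ j ∈ R.erase g, p j) * ∑ j ∈ R, p j :=
              mul_le_mul_of_nonneg_right hTv hP.le
          _ = _ := by ring
      exact le_of_mul_le_mul_right h2 hP'

/-! ### Values of affordable sets -/

lemma finite_values {m : ℕ} (v : Fin m → ℝ) (w : ℝ) (p : Fin m → ℝ) :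
    {x : ℝ | ∃ S : Finset (Fin m), ∑ j ∈ S, p j ≤ w ∧ x = ∑ j ∈ S, v j}.Finite := by
  refine Set.Finite.subset (Set.finite_range fun S : Finset (Fin m) => ∑ j ∈ S, v j) ?_
  rintro x ⟨S, -, rfl⟩
  exact ⟨S, rfl⟩

lemma le_best {m : ℕ} (v : Fin m → ℝ) (w : ℝ) (p : Fin m → ℝ) (S : Finset (Fin m))
    (hS : ∑ j ∈ S, p j ≤ w) : ∑ j ∈ S, v j ≤ bestAffordable v w p :=
  le_csSup (finite_values v w p).bddAbove ⟨S, hS, rfl⟩

lemma finite_bests {m : ℕ} (v : Fin m → ℝ) (w : ℝ) (hw : 0 ≤ w) :
    {x : ℝ | ∃ p : Fin m → ℝ, IsPrice p ∧ x = bestAffordable v w p}.Finite := by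
  refine Set.Finite.subset (Set.finite_range fun S : Finset (Fin m) => ∑ j ∈ S, v j) ?_
  rintro x ⟨p, -, rfl⟩
  have hne : {x : ℝ | ∃ S : Finset (Fin m), ∑ j ∈ S, p j ≤ w ∧ x = ∑ j ∈ S, v j}.Nonempty :=
    ⟨0, ∅, by simpa using hw, by simp⟩
  obtain ⟨S, -, hS⟩ := hne.csSup_mem (finite_values v w p)
  exact ⟨S, hS.symm⟩

/-- The key step: with an entitlement at most one half, an agent whose bundle `S` violates PROP1 gets
less than her AnyPrice share. -/
lemma key {m : ℕ} (v : Fin m → ℝ) (hv : ∀ j, 0 ≤ v j) (w : ℝ) (hw0 : 0 < w) (hw : w ≤ 1 / 2)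
    (S : Finset (Fin m)) (h1 : ∑ j ∈ S, v j < w * ∑ j, v j)
    (h2 : ∀ g ∉ S, ∑ j ∈ S, v j + v g < w * ∑ j, v j) :
    ∑ j ∈ S, v j < APS v w := by
  set s := ∑ j ∈ S, v j with hs
  set V := ∑ j, v j with hV
  have hs0 : 0 ≤ s := sum_nonneg fun j _ => hv j
  have hV0 : 0 < V := by
    by_contra h
    push Not at h
    nlinarith
  have hsplit : ∑ j ∈ Sᶜ, v j = V - s := by
    rw [hV, ← sum_add_sum_compl S v]; ring
  -- every price vector has an affordable set of value more than `s`
  have hprice : ∀ p : Fin m → ℝ, IsPrice p → s < bestAffordable v w p := by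
    rintro p ⟨hp0, hp1⟩
    set P := ∑ j ∈ S, p j with hP
    have hP0 : 0 ≤ P := sum_nonneg fun j _ => hp0 j
    have hPc : ∑ j ∈ Sᶜ, p j = 1 - P := by
      rw [← hp1, ← sum_add_sum_compl S p]; ring
    by_cases hcase : P * V < s
    · -- one more item is affordable
      obtain ⟨g, hg, hgv, hgp⟩ : ∃ g ∈ Sᶜ, 0 < v g ∧ p g ≤ w - P := by
        by_contra hcon
        push Not at hcon
        have hPw : P < w := by
          by_contra h
          push Not at h
          nlinarith
        have h3 : (w - P) * (V - s) ≤ (1 - P) * (w * V - s) := by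
          rw [← hsplit, ← hPc, mul_sum, sum_mul]
          apply sum_le_sum
          intro g hg
          rw [mem_compl] at hg
          have h4 := h2 g hg
          rcases (hv g).eq_or_lt with h0 | h0
          · rw [← h0]
            have : 0 ≤ p g * (w * V - s) := mul_nonneg (hp0 g) (by linarith)
            simpa using this
          · have h5 := hcon g (mem_compl.2 hg) h0
            calc (w - P) * v g ≤ p g * v g := mul_le_mul_of_nonneg_right h5.le h0.le
              _ ≤ p g * (w * V - s) := mul_le_mul_of_nonneg_left (by linarith) (hp0 g)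
        nlinarith
      rw [mem_compl] at hg
      have h3 := le_best v w p (insert g S) (by rw [sum_insert hg]; linarith)
      rw [sum_insert hg] at h3
      linarith
    · push Not at hcase
      -- use only the other items
      by_cases hsmall : 1 - P ≤ w
      · have h3 := le_best v w p Sᶜ (by rw [hPc]; exact hsmall)
        rw [hsplit] at h3
        nlinarith
      · push Not at hsmall
        obtain ⟨M, hM1, hM2⟩ : ∃ M : ℝ, (∀ j ∈ Sᶜ, v j ≤ M) ∧ s + M < w * V := by
          by_cases hne : (Sᶜ).Nonempty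
          · obtain ⟨g, hg, hmax⟩ := exists_max_image Sᶜ v hne
            exact ⟨v g, hmax, h2 g (mem_compl.1 hg)⟩
          · rw [not_nonempty_iff_eq_empty] at hne
            refine ⟨0, ?_, by linarith⟩
            rw [hne]; simp
        obtain ⟨T, hT, hTp, hTv⟩ := knapsack p v w M hw0.le Sᶜ (fun j _ => hp0 j)
          (fun j _ => hv j) hM1 (by rw [hPc]; exact hsmall)
        rw [hsplit, hPc] at hTv
        have h3 := le_best v w p T hTp
        have hq : 0 < 1 - P := by linarith
        have h4 : (V * w) * (1 - P) ≤ (∑ j ∈ T, v j + M) * (1 - P) := by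
          refine le_trans ?_ hTv
          nlinarith
        have h5 : V * w ≤ ∑ j ∈ T, v j + M := le_of_mul_le_mul_right h4 hq
        linarith
  -- the infimum is attained
  have hne : {x : ℝ | ∃ p : Fin m → ℝ, IsPrice p ∧ x = bestAffordable v w p}.Nonempty := by
    have hm : Nonempty (Fin m) := by
      by_contra h
      rw [not_nonempty_iff] at h
      rw [hV] at hV0
      simp at hV0
    obtain ⟨j₀⟩ := hm
    exact ⟨_, Pi.single j₀ 1, ⟨fun j => by
      by_cases h : j = j₀
      · subst h; simp
      · simp [h], by simp⟩, rfl⟩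
  obtain ⟨p, hp, hpe⟩ := hne.csInf_mem (finite_bests v w hw0.le)
  unfold APS
  rw [hpe]
  exact hprice p hp

/-! ### The counterexamples -/

/-- Values of the agent with the large entitlement: one item of value `1`, `k` items of value
`1 / k`. -/
noncomputable def bigV (k : ℕ) (j : Fin (k + 1)) : ℝ := if j = 0 then 1 else 1 / k

lemma sum_bigV (k : ℕ) (hk : 0 < k) : ∑ j, bigV k j = 2 := by
  unfold bigV
  rw [Fin.sum_univ_succ]
  have : (k : ℝ) ≠ 0 := by positivity
  simp [Fin.succ_ne_zero]
  field_simp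
  norm_num

lemma APS_bigV (k : ℕ) (hk : 0 < k) (w : ℝ) (hw0 : 0 < w) (hw1 : w < 1) :
    APS (bigV k) w ≤ 1 := by
  have hkR : (0 : ℝ) < k := by exact_mod_cast hk
  set p : Fin (k + 1) → ℝ := fun j => if j = 0 then (1 + w) / 2 else (1 - w) / (2 * k) with hp
  have hprice : IsPrice p := by
    refine ⟨fun j => ?_, ?_⟩
    · simp only [hp]
      split_ifs
      · linarith
      · exact div_nonneg (by linarith) (by positivity)
    · simp only [hp]
      rw [Fin.sum_univ_succ]
      simp [Fin.succ_ne_zero]
      field_simp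
      ring
  have h1 : APS (bigV k) w ≤ bestAffordable (bigV k) w p :=
    csInf_le (finite_bests _ w hw0.le).bddBelow ⟨p, hprice, rfl⟩
  refine h1.trans ?_
  have hne : {x : ℝ | ∃ S : Finset (Fin (k + 1)), ∑ j ∈ S, p j ≤ w ∧
      x = ∑ j ∈ S, bigV k j}.Nonempty := ⟨0, ∅, by simpa using hw0.le, by simp⟩
  apply csSup_le hne
  rintro x ⟨S, hS, rfl⟩
  have h0 : (0 : Fin (k + 1)) ∉ S := by
    intro h
    have h2 : p 0 ≤ ∑ j ∈ S, p j := single_le_sum (fun j _ => hprice.1 j) h
    have h3 : p 0 = (1 + w) / 2 := by simp [hp]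
    linarith
  have h2 : ∑ j ∈ S, bigV k j ≤ ∑ j ∈ univ.erase (0 : Fin (k + 1)), bigV k j := by
    apply sum_le_sum_of_subset_of_nonneg
    · intro j hj
      rw [mem_erase]
      exact ⟨fun h => h0 (h ▸ hj), mem_univ _⟩
    · intro j _ _
      unfold bigV
      split_ifs <;> positivity
  have h3 := add_sum_erase univ (bigV k) (mem_univ 0)
  rw [sum_bigV k hk] at h3
  have h4 : bigV k 0 = 1 := by simp [bigV]
  linarith

lemma APS_zero {m : ℕ} (w : ℝ) (hw : 0 ≤ w) : APS (fun _ : Fin m => (0 : ℝ)) w ≤ 0 := by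
  unfold APS
  have hb : ∀ p : Fin m → ℝ, bestAffordable (fun _ : Fin m => (0 : ℝ)) w p = 0 := by
    intro p
    unfold bestAffordable
    have : {x : ℝ | ∃ S : Finset (Fin m), ∑ j ∈ S, p j ≤ w ∧ x = ∑ j ∈ S, (0 : ℝ)} = {0} := by
      ext x
      constructor
      · rintro ⟨S, -, rfl⟩; simp
      · rintro rfl; exact ⟨∅, by simpa using hw, by simp⟩
    rw [this, csSup_singleton]
  by_cases hne : {x : ℝ | ∃ p : Fin m → ℝ, IsPrice p ∧
      x = bestAffordable (fun _ : Fin m => (0 : ℝ)) w p}.Nonempty
  · obtain ⟨x, p, hp, rfl⟩ := hne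
    refine csInf_le ?_ ⟨p, hp, (hb p).symm⟩
    exact (finite_bests _ w hw).bddBelow
  · rw [Set.not_nonempty_iff_eq_empty] at hne
    rw [hne, Real.sInf_empty]

lemma APS_le_prop {m : ℕ} (v : Fin m → ℝ) (hv : ∀ j, 0 ≤ v j) (hV : 0 < ∑ j, v j) (w : ℝ)
    (hw : 0 ≤ w) : APS v w ≤ w * ∑ j, v j := by
  set V := ∑ j, v j with hVd
  have hprice : IsPrice (fun j => v j / V) := by
    refine ⟨fun j => div_nonneg (hv j) hV.le, ?_⟩
    rw [← sum_div, ← hVd, div_self hV.ne']
  have h1 : APS v w ≤ bestAffordable v w (fun j => v j / V) :=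
    csInf_le (finite_bests _ w hw).bddBelow ⟨_, hprice, rfl⟩
  refine h1.trans ?_
  have hne : {x : ℝ | ∃ S : Finset (Fin m), ∑ j ∈ S, v j / V ≤ w ∧
      x = ∑ j ∈ S, v j}.Nonempty := ⟨0, ∅, by simpa using hw, by simp⟩
  apply csSup_le hne
  rintro x ⟨S, hS, rfl⟩
  rw [← sum_div, div_le_iff₀ hV] at hS
  exact hS

/-- **APS-fairness and PROP1.** The implication fails already for two agents with entitlements
`9/10` and `1/10`, identical strictly positive valuations and five goods. For `n ≥ 2` agents with
positive entitlements `w` of sum one, every APS-fair allocation of additive goods is PROP1 if and only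
if no entitlement exceeds `1/2`. -/
theorem result :
    (∃ (w : Fin 2 → ℝ) (v : Fin 2 → Fin 5 → ℝ) (A : Fin 5 → Fin 2), (∀ i, 0 < w i) ∧
      ∑ i, w i = 1 ∧ (∀ i j, 0 < v i j) ∧ v 0 = v 1 ∧ APSFair w v A ∧ ¬ PROP1 w v A) ∧
    ∀ n : ℕ, 2 ≤ n → ∀ w : Fin n → ℝ, (∀ i, 0 < w i) → ∑ i, w i = 1 →
      (Implication w ↔ ∀ i, w i ≤ 1 / 2) := by
  constructor
  · refine ⟨![9 / 10, 1 / 10], fun _ => bigV 4, fun j => if j = 0 then 0 else 1, ?_, ?_, ?_, rfl,
      ?_, ?_⟩
    · intro i
      fin_cases i <;> norm_num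
    · norm_num [Fin.sum_univ_two]
    · intro _ j
      show 0 < bigV 4 j
      unfold bigV
      split_ifs <;> norm_num
    · have h2 := sum_bigV 4 (by norm_num)
      intro i
      fin_cases i
      · have h1 := APS_bigV 4 (by norm_num) (9 / 10) (by norm_num) (by norm_num)
        have h3 : own (fun _ : Fin 2 => bigV 4) (fun j : Fin 5 => if j = 0 then 0 else 1) 0 = 1 := by
          simp [own, Finset.sum_filter, bigV]
        simpa [h3] using h1
      · have h1 := APS_le_prop (bigV 4) (fun j => by unfold bigV; split_ifs <;> norm_num)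
          (by rw [h2]; norm_num) (1 / 10) (by norm_num)
        rw [h2] at h1
        have h3 : own (fun _ : Fin 2 => bigV 4) (fun j : Fin 5 => if j = 0 then 0 else 1) 1 = 1 := by
          simp [own, Finset.sum_filter, Fin.sum_univ_succ, bigV]
        simp only [Fin.mk_one, Matrix.cons_val_one, Matrix.cons_val_fin_one]
        rw [h3]
        linarith
    · intro h
      have h2 := sum_bigV 4 (by norm_num)
      have h3 : own (fun _ : Fin 2 => bigV 4) (fun j : Fin 5 => if j = 0 then 0 else 1) 0 = 1 := by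
        simp [own, Finset.sum_filter, bigV]
      rcases h 0 with h | ⟨g, hg, h⟩
      · rw [h3, h2] at h
        norm_num at h
      · rw [h3, h2] at h
        have hg0 : g ≠ 0 := by
          rintro rfl
          simp at hg
        have h4 : bigV 4 g = 1 / 4 := by
          unfold bigV
          rw [if_neg hg0]
          norm_num
        have h5 : (9 / 10 : ℝ) * 2 ≤ 1 + bigV 4 g := h
        rw [h4] at h5
        norm_num at h5
  · intro n hn w hw0 hw1
    have hlt1 : ∀ i, w i < 1 := by
      intro i
      have hcard : 1 < (univ : Finset (Fin n)).card := by rw [card_univ, Fintype.card_fin]; omega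
      obtain ⟨i', -, hi'⟩ := exists_mem_ne hcard i
      have h1 : w i + w i' ≤ ∑ j, w j := by
        rw [← sum_pair (Ne.symm hi')]
        exact sum_le_sum_of_subset_of_nonneg (subset_univ _) fun j _ _ => (hw0 j).le
      linarith [hw0 i']
    constructor
    · intro himp i
      by_contra hcon
      push Not at hcon
      obtain ⟨k, hk⟩ := exists_nat_gt (1 / (2 * w i - 1))
      have hpos : 0 < 2 * w i - 1 := by linarith
      have hk0 : 0 < k := by
        have : (0 : ℝ) < k := lt_trans (by positivity) hk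
        exact_mod_cast this
      have hkR : (0 : ℝ) < k := by exact_mod_cast hk0
      have hk1 : 1 / (k : ℝ) < 2 * w i - 1 := by
        rw [div_lt_iff₀ hkR]
        rw [div_lt_iff₀ hpos] at hk
        linarith
      have hcard : 1 < (univ : Finset (Fin n)).card := by rw [card_univ, Fintype.card_fin]; omega
      obtain ⟨i', -, hi'⟩ := exists_mem_ne hcard i
      let v : Fin n → Fin (k + 1) → ℝ := fun a => if a = i then bigV k else fun _ => 0
      let A : Fin (k + 1) → Fin n := fun j => if j = 0 then i else i'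
      have hvi : v i = bigV k := by simp [v]
      have hown : own v A i = 1 := by
        unfold own
        rw [hvi]
        have hf : univ.filter (fun j : Fin (k + 1) => A j = i) = {0} := by
          ext j
          simp only [mem_filter, mem_univ, true_and, mem_singleton, A]
          constructor
          · intro h
            by_contra hj
            rw [if_neg hj] at h
            exact hi' h
          · intro h
            rw [if_pos h]
        rw [hf, sum_singleton]
        simp [bigV]
      have hfair : APSFair w v A := by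
        intro a
        by_cases ha : a = i
        · subst ha
          rw [hown, hvi]
          exact APS_bigV k hk0 _ (hw0 _) (hlt1 _)
        · have h1 : v a = fun _ => 0 := by simp [v, ha]
          have h2 : own v A a = 0 := by
            unfold own
            rw [h1]
            simp
          rw [h1, h2]
          exact APS_zero _ (hw0 a).le
      have hprop := himp (k + 1) v (fun a j => by
        simp only [v]
        split_ifs
        · unfold bigV
          split_ifs <;> positivity
        · exact le_rfl) A hfair i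
      rw [hown, hvi, sum_bigV k hk0] at hprop
      rcases hprop with h | ⟨g, hg, h⟩
      · linarith
      · have hg0 : g ≠ 0 := by
          rintro rfl
          exact hg (by simp [A])
        have h4 : bigV k g = 1 / k := by
          unfold bigV
          rw [if_neg hg0]
        rw [h4] at h
        linarith
    · intro hhalf m v hv A hfair i
      by_contra hcon
      push Not at hcon
      obtain ⟨h1, h2⟩ := hcon
      have h3 := key (v i) (hv i) (w i) (hw0 i) (hhalf i) (univ.filter fun j => A j = i) h1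
        (fun g hg => h2 g (by simpa using hg))
      exact absurd (hfair i) (not_le.2 h3)

end Pool.Agent.Results.MP_4956c5_co.HalfEntitlements
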